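import Pool.Agent.W769.SR.Stm

set_option autoImplicit false

/-! SR-GOODPOLY: translation between `Good` and averages. -/

namespace Pool.Agent.W52.SR.GoodPoly

open Metric Set Filter Topology Real Pool.Agent.W769.SR

theorem Mp_eq (p r : ℝ) (h : ℂ → ℂ) : Mp p r h = (av r (fun z => ‖h z‖ ^ p)) ^ (1 / p) := by
  unfold Mp av Real.circleAverage
  congr 1
  rw [smul_eq_mul, div_eq_inv_mul]
  congr 1
  refine intervalIntegral.integral_congr fun t _ => ?_
  simp only [circleMap, zero_add]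

theorem av_nonneg {r : ℝ} {h : ℂ → ℝ} (hh : ∀ z, 0 ≤ h z) : 0 ≤ av r h := by
  unfold av Real.circleAverage
  rw [smul_eq_mul]
  apply mul_nonneg (by positivity)
  exact intervalIntegral.integral_nonneg (by positivity) fun t _ => hh _

theorem second (p r : ℝ) (hp : 0 < p) (hr : 0 < r) (hr1 : r < 1) (f φ : ℂ → ℂ)
    (hf : DifferentiableOn ℂ f (ball 0 1)) (hφ : SelfMap φ) (g : ℂ → ℂ)
    (hg : ∀ z ∈ ball (0 : ℂ) 1, g z = f (φ z)) :
    (Mp p r (deriv g) ≤ Mp p r (deriv f) ↔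
      av r (fun z => ‖deriv f (φ z) * deriv φ z‖ ^ p) ≤ av r (fun z => ‖deriv f z‖ ^ p)) := by
  have h1 : ∀ z ∈ ball (0 : ℂ) 1, deriv g z = deriv f (φ z) * deriv φ z := by
    intro z hz
    have e1 : g =ᶠ[𝓝 z] fun w => f (φ w) :=
      Filter.eventuallyEq_of_mem (isOpen_ball.mem_nhds hz) hg
    rw [e1.deriv_eq]
    have e2 : DifferentiableAt ℂ φ z := (hφ.diff z hz).differentiableAt (isOpen_ball.mem_nhds hz)
    have e3 : DifferentiableAt ℂ f (φ z) :=
      (hf _ (hφ.maps hz)).differentiableAt (isOpen_ball.mem_nhds (hφ.maps hz))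
    exact (e3.hasDerivAt.comp z e2.hasDerivAt).deriv
  have h2 : av r (fun z => ‖deriv g z‖ ^ p) = av r (fun z => ‖deriv f (φ z) * deriv φ z‖ ^ p) := by
    unfold av
    refine circleAverage_congr_sphere fun z hz => ?_
    have hz1 : z ∈ ball (0 : ℂ) 1 := by
      rw [mem_sphere_iff_norm, sub_zero, abs_of_pos hr] at hz
      rw [mem_ball_zero_iff, hz]
      exact hr1
    show ‖deriv g z‖ ^ p = ‖deriv f (φ z) * deriv φ z‖ ^ p
    rw [h1 z hz1]
  rw [Mp_eq, Mp_eq, h2]
  exact Real.rpow_le_rpow_iff (av_nonneg fun z => by positivity)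
    (av_nonneg fun z => by positivity) (by positivity)

theorem main : S_GOODPOLY := by
  refine ⟨?_, fun p r hp hr hr1 f φ hf hφ g hg => second p r hp hr hr1 f φ hf hφ g hg⟩
  intro q ρ r hq hρ hG hr hrρ φ hφ P
  obtain ⟨f, hf⟩ := (Polynomial.differentiable (𝕜 := ℂ) P).isExactOn_univ
  have hfd : deriv f = fun z => P.eval z := funext fun z => (hf z (mem_univ z)).deriv
  have hfD : DifferentiableOn ℂ f (ball 0 1) := fun z _ =>
    (hf z (mem_univ z)).differentiableAt.differentiableWithinAt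
  have h1 := hG f (fun z => f (φ z)) hfD (hfD.comp hφ.diff hφ.maps) ⟨φ, hφ, fun z _ => rfl⟩ r hr hrρ
  have h2 := (second q r hq hr (by linarith) f φ hfD hφ _ (fun z _ => rfl)).1 h1
  rw [hfd] at h2
  exact h2

end Pool.Agent.W52.SR.GoodPoly
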