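import Pool.Agent.W769.SR.Stm

set_option autoImplicit false

/-! SR-POW: powers of zero free functions. -/

namespace Pool.Agent.W52.SR.Pow

open Metric Set Filter Topology Real Pool.Agent.W769.SR

theorem main : S_POW := by
  intro F R s hR hF hne
  have h1 : DifferentiableOn ℂ (fun z => deriv F z / F z) (ball 0 R) :=
    (hF.deriv isOpen_ball).div hF hne
  obtain ⟨L, hL⟩ := h1.isExactOn_ball
  have hLd : DifferentiableOn ℂ L (ball 0 R) := fun z hz =>
    (hL z hz).differentiableAt.differentiableWithinAt
  have h0 : (0 : ℂ) ∈ ball (0 : ℂ) R := mem_ball_self hR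
  have hH : ∀ z ∈ ball (0 : ℂ) R, HasDerivAt (fun z => F z * Complex.exp (-L z)) 0 z := by
    intro z hz
    have e1 : HasDerivAt F (deriv F z) z :=
      ((hF z hz).differentiableAt (isOpen_ball.mem_nhds hz)).hasDerivAt
    have e2 := e1.mul ((hL z hz).neg.cexp)
    have e3 : deriv F z * Complex.exp (-L z) +
        F z * (Complex.exp (-L z) * -(deriv F z / F z)) = 0 := by
      have := hne z hz
      field_simp
      ring
    have e4 : HasDerivAt (fun z => F z * Complex.exp (-L z)) (deriv F z * Complex.exp (-L z) +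
        F z * (Complex.exp (-L z) * -(deriv F z / F z))) z := e2
    rwa [e3] at e4
  have hconst : ∀ z ∈ ball (0 : ℂ) R, F z * Complex.exp (-L z) = F 0 * Complex.exp (-L 0) := by
    intro z hz
    exact isOpen_ball.is_const_of_deriv_eq_zero (convex_ball 0 R).isPreconnected
      (fun w hw => (hH w hw).differentiableAt.differentiableWithinAt)
      (fun w hw => (hH w hw).deriv) hz h0
  set c : ℂ := F 0 * Complex.exp (-L 0) with hc
  have hc0 : c ≠ 0 := mul_ne_zero (hne 0 h0) (Complex.exp_ne_zero _)
  have hFz : ∀ z ∈ ball (0 : ℂ) R, F z = Complex.exp (Complex.log c + L z) := by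
    intro z hz
    rw [Complex.exp_add, Complex.exp_log hc0, ← hconst z hz, mul_assoc, ← Complex.exp_add,
      neg_add_cancel, Complex.exp_zero, mul_one]
  refine ⟨fun z => Complex.exp ((s : ℂ) * (Complex.log c + L z)), ?_, ?_⟩
  · exact ((hLd.const_add _).const_mul _).cexp
  · intro z hz
    simp only
    rw [hFz z hz, Complex.norm_exp, Complex.norm_exp, ← Real.exp_mul, Complex.re_ofReal_mul,
      mul_comm]

end Pool.Agent.W52.SR.Pow
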